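import Pool.Agent.N71.SP.Stm

/-!
# Project SP: the number of ideal classes reached by products of primes of a given set
-/

set_option autoImplicit false

namespace Pool.Agent.N386.SP

open Finset Filter NumberField Pool.Agent.H38R2.CG Pool.Agent.H38R2.CG2 Pool.Agent.H38R2.CG3
open Pool.Agent.R345.IX (factor)
open scoped Classical

/-- the number of classes reached -/
theorem t_NUM : Pool.Agent.N71.SP.E_NUM := by
  have hN0 : P_N0 := T_N0
  have h_P_SPL : P_SPL := T_SPL hN0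
  have hN1 : P_N1 := T_N1 h_P_SPL
  have h_P_N2 : P_N2 := T_N2 h_P_SPL
  have h_P_KR : P_KR := T_KR
  have h_P_PV : P_PV := T_PV
  have h_P_N3a : P_N3a := T_N3a h_P_KR h_P_PV
  have h_P_N3b : P_N3b := T_N3b h_P_KR h_P_PV h_P_N3a
  have hN3 : P_N3 := T_N3 h_P_N2 h_P_N3b
  have h_P_N4a : P_N4a := T_N4a
  have h_P_N4b : P_N4b := T_N4b
  have h4 : P_N4 := T_N4 h_P_N4a h_P_N4b
  have hKF : P_KF := T_KF
  have h5b : P_N5b := T_N5b hKF h4
  have hN6 : P_N6 := T_N6 hKF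
  intro P K _ _ D hD h2 hK Q B hQ k
  set S := Q.powersetCard k with hS
  have hf : ∀ s ∈ S, (0 : ℝ) ≤ (fun _ : Finset ℕ => (1 : ℝ)) s ∧ ∀ p ∈ s, p.Prime ∧ p ≠ 2 := by
    intro s hs
    refine ⟨zero_le_one, fun p hp => ?_⟩
    have := hQ p ((mem_powersetCard.1 hs).1 hp)
    exact ⟨this.1, this.2.1⟩
  obtain ⟨hA, hB⟩ := nf_classes hN0 hN1 hN3 h4 hKF h5b hN6 K D hD h2 hK S (fun _ => 1) hf
  set A0 : Finset (ClassGroup (𝓞 K)) := Finset.univ.filter
    (fun C => MC K S (fun _ => 1) C ≠ 0) with hA0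
  have hsub : (A0 : Set (ClassGroup (𝓞 K))) ⊆ Pool.Agent.N71.SP.Reach P K B k := by
    intro C hC
    have h5 := (Finset.mem_filter.1 (Finset.mem_coe.1 hC)).2
    unfold MC at h5
    obtain ⟨s, hs, hs'⟩ := Finset.exists_ne_zero_of_sum_ne_zero h5
    have hne : Nonempty {I : nonZeroDivisors (Ideal (𝓞 K)) //
        Ideal.absNorm (I : Ideal (𝓞 K)) = prodS s ∧ ClassGroup.mk0 I = C} := by
      by_contra hemp
      rw [not_nonempty_iff] at hemp
      apply hs'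
      rw [Nat.card_of_isEmpty]
      simp
    obtain ⟨I, hI1, hI2⟩ := hne
    have hsP := Finset.mem_powersetCard.1 hs
    obtain ⟨L, hL1, hL2, hL3⟩ := factor K s (fun p hp => (hQ p (hsP.1 hp)).1) I hI1
    refine ⟨L, ?_, ?_, ?_⟩
    · intro R hR
      have h6 := hQ _ (hsP.1 (hL1 R hR).2)
      exact ⟨(hL1 R hR).1, h6.1, h6.2.2.1, h6.2.2.2⟩
    · rw [hL2, hsP.2]
    · rw [hL3, hI2]
  have hcard : (A0.card : ℝ) ≤ ((Pool.Agent.N71.SP.Reach P K B k).ncard : ℝ) := by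
    have h1 : (A0 : Set (ClassGroup (𝓞 K))).ncard ≤ (Pool.Agent.N71.SP.Reach P K B k).ncard :=
      Set.ncard_le_ncard hsub (Set.toFinite _)
    rw [Set.ncard_coe_finset] at h1
    exact_mod_cast h1
  have hMD : MD D S (fun _ => 1) = ∑ C ∈ A0, MC K S (fun _ => 1) C := by
    rw [← hB]
    refine (Finset.sum_subset (Finset.subset_univ A0) ?_).symm
    intro C _ hC
    by_contra h
    exact hC (Finset.mem_filter.2 ⟨Finset.mem_univ _, h⟩)
  have hCS : (MD D S (fun _ => 1)) ^ 2 ≤ (A0.card : ℝ) *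
      ∑ C : ClassGroup (𝓞 K), (MC K S (fun _ => 1) C) ^ 2 := by
    rw [hMD]
    refine (sq_sum_le_card_mul_sum_sq (s := A0) (f := fun C => MC K S (fun _ => 1) C)).trans ?_
    refine mul_le_mul_of_nonneg_left ?_ (Nat.cast_nonneg _)
    exact Finset.sum_le_sum_of_subset_of_nonneg (Finset.subset_univ _) fun C _ _ => sq_nonneg _
  have hh : (0 : ℝ) ≤ Nat.card (ClassGroup (𝓞 K)) := Nat.cast_nonneg _
  have hsumnn : 0 ≤ (Nat.card (ClassGroup (𝓞 K)) : ℝ) *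
      ∑ C : ClassGroup (𝓞 K), (MC K S (fun _ => 1) C) ^ 2 :=
    mul_nonneg hh (Finset.sum_nonneg fun C _ => sq_nonneg _)
  calc (Nat.card (ClassGroup (𝓞 K)) : ℝ) * (MD D S (fun _ => 1)) ^ 2
      ≤ (Nat.card (ClassGroup (𝓞 K)) : ℝ) * ((A0.card : ℝ) *
        ∑ C : ClassGroup (𝓞 K), (MC K S (fun _ => 1) C) ^ 2) :=
        mul_le_mul_of_nonneg_left hCS hh
    _ = (A0.card : ℝ) * ((Nat.card (ClassGroup (𝓞 K)) : ℝ) *
        ∑ C : ClassGroup (𝓞 K), (MC K S (fun _ => 1) C) ^ 2) := by ring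
    _ ≤ ((Pool.Agent.N71.SP.Reach P K B k).ncard : ℝ) * ((Nat.card (ClassGroup (𝓞 K)) : ℝ) *
        ∑ C : ClassGroup (𝓞 K), (MC K S (fun _ => 1) C) ^ 2) :=
        mul_le_mul_of_nonneg_right hcard hsumnn
    _ ≤ _ := mul_le_mul_of_nonneg_left hA (Nat.cast_nonneg _)

end Pool.Agent.N386.SP
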